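import Pool.Agent.BEN.StmtsB

set_option autoImplicit false

/-!
# BEN, row PRL: the product rule with weak derivatives
-/

namespace Pool.Agent.BEN.H58

open Set Filter Topology MeasureTheory
open Pool.Agent.BEN

theorem prl : PrlStmt := by
  intro E1 E2 F1 F2 Z _ _ _ _ _ _ _ _ _ _ a1 a2 B B' x y x' y' t hB hx h1 h2
  rw [hasDerivAt_iff_tendsto_slope] at h1 h2 ⊢
  have hs : ∀ r, slope (fun r => B (x r) (a2 (y r))) t r =
      B (x r) (slope (fun r => a2 (y r)) t r) + B' (slope (fun r => a1 (x r)) t r) (y t) := by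
    intro r
    simp only [slope_def_module]
    rw [map_smul, map_smul, _root_.smul_apply, ← smul_add]
    congr 1
    have e : B' (a1 (x r) - a1 (x t)) (y t) = B (x r) (a2 (y t)) - B (x t) (a2 (y t)) := by
      rw [map_sub, _root_.sub_apply, ← hB, ← hB]
    rw [e, map_sub]
    abel
  have hx' : Tendsto x (𝓝[≠] t) (𝓝 (x t)) := hx.tendsto.mono_left nhdsWithin_le_nhds
  have hA : Tendsto (fun r => B (x r)) (𝓝[≠] t) (𝓝 (B (x t))) :=
    (B.continuous.tendsto (x t)).comp hx'
  have hC : Tendsto (fun r => B' (slope (fun r => a1 (x r)) t r)) (𝓝[≠] t) (𝓝 (B' x')) :=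
    (B'.continuous.tendsto x').comp h1
  refine Tendsto.congr (fun r => (hs r).symm) ?_
  refine Tendsto.add ?_ ?_
  · exact ((isBoundedBilinearMap_apply (𝕜 := ℝ) (E := F2) (F := Z)).continuous.tendsto
      (B (x t), y')).comp (hA.prodMk_nhds h2)
  · exact ((isBoundedBilinearMap_apply (𝕜 := ℝ) (E := E2) (F := Z)).continuous.tendsto
      (B' x', y t)).comp (hC.prodMk_nhds tendsto_const_nhds)

end Pool.Agent.BEN.H58
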